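import Pool.Agent.Lib.MP_484915_co.Cert0
import Pool.Agent.Lib.MP_484915_co.Cert1
import Pool.Agent.Lib.MP_484915_co.Cert2
import Pool.Agent.Lib.MP_484915_co.Cert3

set_option autoImplicit false

namespace Pool.Agent.Bond

def st0_L : List (Nat × Nat × Nat) :=
  [(0xfffffffffffffffffffffffb3f, 0xfffffff0000000000000000000, 3),
   (0xfffffffffffffffffffffff77f, 0xfffffff0000000000000000000, 4),
   (0xffffffffffffffffffeeffff7f, 0xfffffff0000000000000000800, 3),
   (0xffffffffffffffffffdfffff7f, 0xfffffff0000000000000000800, 4),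
   (0xffffffffffffffbbffffffff7f, 0xfffffff0000000000020000800, 3),
   (0xffffffffffffff7fffffffff7f, 0xfffffff0000000000020000800, 4),
   (0xfffffffffeefffffffffffff7f, 0xfffffff0000000800020000800, 3),
   (0xfffffffffdffffffffffffff7f, 0xfffffff0000000800020000800, 4),
   (0xfffffffffffffffffffffffd6f, 0xfffffff0020000800020000800, 3),
   (0xffffffffffffffffffffffbf7f, 0xfffffff0020000800020000800, 4),
   (0xfffffffffffffffffff7bfff7f, 0xfffffff0020000800020004800, 3),
   (0xfffffffffffffffffeffffff7f, 0xfffffff0020000800020004800, 4),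
   (0xffffffffffffffdeffffffff7f, 0xfffffff0020000800120004800, 3),
   (0xfffffffffffffbffffffffff7f, 0xfffffff0020000800120004800, 4),
   (0xffffffffff7bffffffffffff7f, 0xfffffff0020004800120004800, 3),
   (0xffffffffefffffffffffffff7f, 0xfffffff0020004800120004800, 4),
   (0xffffffffffffffffffffdfef7f, 0xfffffff0120004800120004800, 3),
   (0xffffffffffffffff7fbfffff7f, 0xfffffff0120004800120004800, 3),
   (0xfffffffffffdfeffffffffff7f, 0xfffffff0120004800120004800, 3),
   (0xfffffff7fbffffffffffffff7f, 0xfffffff0120004800120004800, 3),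
   (0xffffffffffffffffffffffff7c, 0xfffffff0120004800120004800, 3),
   (0xffffffffffffffffffffffff73, 0xfffffff0120004800120004800, 3)]

theorem st0_h : ∀ t ∈ st0_L, GoodSt t.1 t.2.1 t.2.2 := by
  unfold st0_L
  simp only [List.forall_mem_cons]
  exact ⟨c0_0, c0_1, c0_2, c0_3, c0_4, c0_5, c0_6, c0_7, c0_8, c0_9, c0_10, c0_11, c0_12, c0_13, c0_14, c0_15, c0_16, c0_17, c0_18, c0_19, c0_20, c0_21, by simp⟩

theorem st0 : GoodSt
    0xffffffffffffffffffffffff7f
    0xfffffff0000000000000000000 5 :=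
  split_isSome (d := 0x263b1a) st0_h (by decide +kernel)

def st1_L : List (Nat × Nat × Nat) :=
  [(0xfffffffffffffffffffffff9ff, 0xfffffff0c06030180c06030180, 4),
   (0xffffffffffffffffffffeffbff, 0xfffffff0c06030180c06030380, 4),
   (0xffffffffffffffffffcffffbff, 0xfffffff0c06030180c06130380, 3),
   (0xffffffffffffffffdffffffbff, 0xfffffff0c06030180c06130380, 4),
   (0xffffffffffffffdffffffffbff, 0xfffffff0c06030182c06130380, 4),
   (0xfffffffffffefffffffffffbff, 0xfffffff0c06030382c06130380, 4),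
   (0xfffffffffcfffffffffffffbff, 0xfffffff0c06130382c06130380, 3),
   (0xfffffffdfffffffffffffffbff, 0xfffffff0c06130382c06130380, 4),
   (0xfffffffffffffffefffffffbef, 0xfffffff2c06130382c06130380, 3),
   (0xfffffffffffffffdfffffffbdf, 0xfffffff2c06130382c06130380, 3),
   (0xffffffffffeffffffffefffbff, 0xfffffff2c06130382c06130380, 3),
   (0xffffffffdffffffffdfffffbff, 0xfffffff2c06130382c06130380, 3)]

theorem st1_h : ∀ t ∈ st1_L, GoodSt t.1 t.2.1 t.2.2 := by
  unfold st1_L
  simp only [List.forall_mem_cons]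
  exact ⟨c1_0, c1_1, c1_2, c1_3, c1_4, c1_5, c1_6, c1_7, c1_8, c1_9, c1_10, c1_11, by simp⟩

theorem st1 : GoodSt
    0xfffffffffffffffffffffffbff
    0xfffffff0c06030180c06030180 5 :=
  split_isSome (d := 0x8a5c2d7) st1_h (by decide +kernel)

end Pool.Agent.Bond
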