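import Mathlib

set_option autoImplicit false

/-!
The 28-vertex plane graph used for the bondage number problem and a checker for
search trees over sets of at most six removed edges.
-/

namespace Pool.Agent.Bond

/-- the 76 edges, as pairs of vertex numbers -/
def edL : List (Nat × Nat) :=
  [(0, 1), (1, 2), (2, 3), (0, 3), (0, 4), (1, 4), (0, 8), (4, 8), (4, 9), (4, 12), (8, 12), (9, 12), (12, 13), (1, 5), (2, 5), (1, 9), (5, 9), (5, 10), (5, 13), (9, 13), (10, 13), (13, 14), (2, 6), (3, 6), (2, 10), (6, 10), (6, 11), (6, 14), (10, 14), (11, 14), (14, 15), (3, 7), (0, 7), (3, 11), (7, 11), (7, 8), (7, 15), (11, 15), (8, 15), (12, 15), (0, 16), (1, 16), (0, 20), (16, 20), (16, 21), (16, 24), (20, 24), (21, 24), (24, 25), (1, 17), (2, 17), (1, 21), (17, 21), (17, 22), (17, 25), (21, 25), (22, 25), (25, 26), (2, 18), (3, 18), (2, 22), (18, 22), (18, 23), (18, 26), (22, 26), (23, 26), (26, 27), (3, 19), (0, 19), (3, 23), (19, 23), (19, 20), (19, 27), (23, 27), (20, 27), (24, 27)]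

/-- first endpoint of edge number `i` -/
def ea (i : Nat) : Nat := (edL.getD i (99, 99)).1

/-- second endpoint of edge number `i` -/
def eb (i : Nat) : Nat := (edL.getD i (99, 99)).2

/-- incidence masks: binary digit `i < 76` for the edges at the vertex, digit `76 + v` for the
vertex `v` itself. The order of the vertices in this list is irrelevant. -/
def incs : List Nat :=
  [0x10000000000048000004c0,
  0x2000000000000000098900,
  0x4000000000000013120000,
  0x8000000000002624000000,
  0x10000048000004c0000000000,
  0x2000000000098900000000000,
  0x4000000013120000000000000,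
  0x8000002624000000000000000,
  0x1000000000000000003b0,
  0x200000000000000076000,
  0x40000000000000ec00000,
  0x800000000001d80000000,
  0x1000000000003b0000000000,
  0x200000000076000000000000,
  0x40000000ec00000000000000,
  0x800001d80000000000000000,
  0x10000000000008000001e00,
  0x200000000000000003c1000,
  0x40000000000000078200000,
  0x8000000000000f040000000,
  0x10000008000001e00000000000,
  0x200000000003c1000000000000,
  0x40000000078200000000000000,
  0x8000000f040000000000000000,
  0x10100000050100000059,
  0x2000000a02000000a023,
  0x40001404000001404006,
  0x8028080000028080000c]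

/-- the same masks packed into one number, vertex `v` at position `104 * v` -/
def INC : Nat :=
  0x8000000f04000000000000000040000000078200000000000000200000000003c100000000000010000008000001e00000000000080000026240000000000000000400000001312000000000000002000000000098900000000000010000048000004c000000000000800001d800000000000000000040000000ec0000000000000000200000000076000000000000001000000000003b00000000000008000000000000f04000000000040000000000000078200000000200000000000000003c100000010000000000008000001e00000080000000000026240000000000400000000000001312000000002000000000000000098900000010000000000048000004c000000800000000001d800000000000040000000000000ec0000000000200000000000000076000000001000000000000000003b00000008028080000028080000c000000400014040000014040060000002000000a02000000a02300000010100000050100000059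

/-- a lower bound for the number of binary ones of `s`, with fuel `k` -/
noncomputable def pc (k : Nat) : Nat → Nat :=
  Nat.rec (motive := fun _ => Nat → Nat) (fun _ => 0)
    (fun _ ih s => cond (Nat.beq s 0) 0 (Nat.succ (ih (Nat.land s (Nat.sub s 1))))) k

/-- the `k`-th field of five binary digits -/
def fld (d k : Nat) : Nat := Nat.land (Nat.shiftRight d (Nat.mul 5 k)) 31

def ent (v : Nat) : Nat := Nat.shiftRight INC (Nat.mul 104 v)

/-- union of the masks of the six vertices coded by `d` -/
def incD (d : Nat) : Nat :=
  Nat.land (Nat.lor (Nat.lor (Nat.lor (ent (fld d 0)) (ent (fld d 1)))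
    (Nat.lor (ent (fld d 2)) (ent (fld d 3))))
    (Nat.lor (ent (fld d 4)) (ent (fld d 5)))) 0xffffffffffffffffffffffffff

abbrev Res := Option (Nat × List Nat)

noncomputable def go (ih : Nat → List Nat → Nat → Nat → Nat → Res) (dD A left : Nat)
    (l : List Nat) : Nat → List Nat → Nat → Res :=
  List.rec (motive := fun _ => Nat → List Nat → Nat → Res)
    (fun c cs _ => some (c, cs))
    (fun iv _ r c cs P =>
      cond (Nat.beq (Nat.land (Nat.land iv dD) P) 0)
        ((fun s => (fun k =>
          cond (Nat.ble k left)
            (cond (Nat.beq k 0) none
              (Option.rec (motive := fun _ => Res) none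
                (fun p => r p.1 p.2
                  (cond (and (Nat.beq k 1) (Nat.beq s (Nat.pow 2 (Nat.log2 s)))) (Nat.lor P s) P))
                (ih c cs (Nat.xor A s) P (Nat.sub left k))))
            (r c cs P)) (pc (Nat.succ left) s)) (Nat.land (Nat.land iv dD) A))
        (r c cs P)) l

noncomputable def all0 (dA : Nat) (l : List Nat) : Bool :=
  List.rec (motive := fun _ => Bool) true
    (fun iv _ r => cond (Nat.beq (Nat.land iv dA) 0) false r) l

noncomputable def node (ih : Nat → List Nat → Nat → Nat → Nat → Res) (c : Nat) (cs : List Nat)
    (A P left : Nat) : Res :=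
  cond (Nat.beq left 0)
    (cond (all0 (Nat.land (incD (Nat.land c 0x3fffffff)) A) incs)
      (some (Nat.shiftRight c 30, cs)) none)
    (go ih (incD (Nat.land c 0x3fffffff)) A left incs (Nat.shiftRight c 30) cs P)

noncomputable def run (fuel : Nat) : Nat → List Nat → Nat → Nat → Nat → Res :=
  Nat.rec (motive := fun _ => Nat → List Nat → Nat → Nat → Nat → Res)
    (fun _ _ _ _ _ => none)
    (fun _ ih c cs A P left =>
      cond (Nat.beq c 0)
        (List.rec (motive := fun _ => Res) none
          (fun c' cs' _ => node ih c' cs' A P left) cs)
        (node ih c cs A P left))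
    fuel

/-! ### Soundness -/

/-- the state describes the edge set `S`: `P` avoids it and at most `left` of its members are in `A` -/
def Inv (S : Finset Nat) (A P left : Nat) : Prop :=
  (∀ i ∈ S, P.testBit i = false) ∧ (S.filter (fun i => A.testBit i = true)).card ≤ left

def Wit (S : Finset Nat) (d iv : Nat) : Prop :=
  ∃ i, iv.testBit i = true ∧ (incD d).testBit i = true ∧ i ∉ S

/-- some six vertices still dominate after removing the edges in `S` -/
def Good (S : Finset Nat) : Prop := ∃ d, ∀ iv ∈ incs, Wit S d iv

def GoodSt (A P left : Nat) : Prop := ∀ S, Inv S A P left → Good S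

theorem tb_land (a b i : Nat) : (Nat.land a b).testBit i = (a.testBit i && b.testBit i) :=
  Nat.testBit_and a b i

theorem tb_lor (a b i : Nat) : (Nat.lor a b).testBit i = (a.testBit i || b.testBit i) :=
  Nat.testBit_or a b i

theorem tb_xor (a b i : Nat) : (Nat.xor a b).testBit i = (a.testBit i ^^ b.testBit i) :=
  Nat.testBit_xor a b i

theorem tb_shr (a b i : Nat) : (Nat.shiftRight a b).testBit i = a.testBit (b + i) :=
  Nat.testBit_shiftRight a

theorem exists_bit {a : Nat} (h : Nat.beq a 0 = false) : ∃ i, a.testBit i = true := by
  have h0 : a ≠ 0 := by
    intro h1
    subst h1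
    simp at h
  exact Nat.exists_testBit_of_ne_zero h0

theorem pc_succ (k s : Nat) :
    pc (k + 1) s = cond (Nat.beq s 0) 0 (Nat.succ (pc k (Nat.land s (Nat.sub s 1)))) := rfl

theorem pc_le (S : Finset Nat) : ∀ (k s : Nat), (∀ i, s.testBit i = true → i ∈ S) →
    pc k s ≤ (S.filter (fun i => s.testBit i = true)).card := by
  intro k
  induction k with
  | zero =>
    intro s _
    exact Nat.zero_le _
  | succ k ih =>
    intro s hs
    rw [pc_succ]
    cases hb : Nat.beq s 0 with
    | true => exact Nat.zero_le _
    | false =>
      have hs0 : s ≠ 0 := by
        intro h1
        subst h1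
        simp at hb
      have hle : Nat.land s (Nat.sub s 1) ≤ s - 1 := Nat.and_le_right
      have hne : s ≠ Nat.land s (Nat.sub s 1) := by omega
      have hex : ∃ i, s.testBit i ≠ (Nat.land s (Nat.sub s 1)).testBit i := by
        by_contra hcon
        push Not at hcon
        exact hne (Nat.eq_of_testBit_eq hcon)
      obtain ⟨i, hi⟩ := hex
      have hi1 : s.testBit i = true := by
        by_contra h1
        rw [tb_land] at hi
        simp at h1
        rw [h1] at hi
        simp at hi
      have hi2 : (Nat.land s (Nat.sub s 1)).testBit i = false := by
        rw [hi1] at hi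
        cases h : (Nat.land s (Nat.sub s 1)).testBit i with
        | true => rw [h] at hi; exact absurd rfl hi
        | false => rfl
      have hsub : S.filter (fun i => (Nat.land s (Nat.sub s 1)).testBit i = true) ⊂
          S.filter (fun i => s.testBit i = true) := by
        rw [Finset.ssubset_iff_of_subset]
        · refine ⟨i, ?_, ?_⟩
          · rw [Finset.mem_filter]
            exact ⟨hs i hi1, hi1⟩
          · rw [Finset.mem_filter]
            rintro ⟨_, h2⟩
            rw [hi2] at h2
            exact absurd h2 (by decide)
        · intro j hj
          rw [Finset.mem_filter] at hj ⊢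
          refine ⟨hj.1, ?_⟩
          have := hj.2
          rw [tb_land] at this
          simp at this
          exact this.1
      have h1 := Finset.card_lt_card hsub
      have h2 := ih (Nat.land s (Nat.sub s 1)) (by
        intro j hj
        rw [tb_land] at hj
        simp at hj
        exact hs j hj.1)
      exact Nat.succ_le_of_lt (lt_of_le_of_lt h2 h1)

theorem go_nil (ih : Nat → List Nat → Nat → Nat → Nat → Res) (dD A left c : Nat) (cs : List Nat)
    (P : Nat) : go ih dD A left [] c cs P = some (c, cs) := rfl

theorem go_cons (ih : Nat → List Nat → Nat → Nat → Nat → Res) (dD A left : Nat) (iv : Nat)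
    (l : List Nat) (c : Nat) (cs : List Nat) (P : Nat) :
    go ih dD A left (iv :: l) c cs P =
      cond (Nat.beq (Nat.land (Nat.land iv dD) P) 0)
        (cond (Nat.ble (pc (Nat.succ left) (Nat.land (Nat.land iv dD) A)) left)
            (cond (Nat.beq (pc (Nat.succ left) (Nat.land (Nat.land iv dD) A)) 0) none
              (Option.rec (motive := fun _ => Res) none
                (fun p => go ih dD A left l p.1 p.2
                  (cond (and (Nat.beq (pc (Nat.succ left) (Nat.land (Nat.land iv dD) A)) 1)
                    (Nat.beq (Nat.land (Nat.land iv dD) A)
                      (Nat.pow 2 (Nat.log2 (Nat.land (Nat.land iv dD) A)))))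
                    (Nat.lor P (Nat.land (Nat.land iv dD) A)) P))
                (ih c cs (Nat.xor A (Nat.land (Nat.land iv dD) A)) P
                  (Nat.sub left (pc (Nat.succ left) (Nat.land (Nat.land iv dD) A))))))
            (go ih dD A left l c cs P))
        (go ih dD A left l c cs P) := rfl

theorem go_sound (ih : Nat → List Nat → Nat → Nat → Nat → Res)
    (hih : ∀ c cs A P left r, ih c cs A P left = some r → GoodSt A P left)
    (d A left : Nat) (S : Finset Nat) : ∀ (l : List Nat) (c : Nat) (cs : List Nat) (P : Nat)
      (r : Nat × List Nat), go ih (incD d) A left l c cs P = some r → Inv S A P left →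
      Good S ∨ ∀ iv ∈ l, Wit S d iv := by
  intro l
  induction l with
  | nil =>
    intro c cs P r _ _
    right
    intro iv hiv
    simp at hiv
  | cons iv l ihl =>
    intro c cs P r hgo hinv
    rw [go_cons] at hgo
    generalize hs : Nat.land (Nat.land iv (incD d)) A = s at hgo
    generalize hk : pc (Nat.succ left) s = k at hgo
    have hsbit : ∀ i, s.testBit i = true →
        iv.testBit i = true ∧ (incD d).testBit i = true ∧ A.testBit i = true := by
      intro i hi
      rw [← hs, tb_land, tb_land] at hi
      simp at hi
      exact ⟨hi.1.1, hi.1.2, hi.2⟩
    have hcons : Wit S d iv → (Good S ∨ ∀ iv ∈ l, Wit S d iv) →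
        (Good S ∨ ∀ iv' ∈ iv :: l, Wit S d iv') := by
      intro h1 h2
      rcases h2 with h2 | h2
      · exact Or.inl h2
      · right
        intro iv' h3
        rcases List.mem_cons.mp h3 with h3 | h3
        · rw [h3]; exact h1
        · exact h2 iv' h3
    cases hb : Nat.beq (Nat.land (Nat.land iv (incD d)) P) 0 with
    | false =>
      rw [hb, cond_false] at hgo
      obtain ⟨i, hi⟩ := exists_bit hb
      rw [tb_land, tb_land] at hi
      simp at hi
      refine hcons ⟨i, hi.1.1, hi.1.2, ?_⟩ (ihl c cs P r hgo hinv)
      intro hiS
      have := hinv.1 i hiS
      rw [hi.2] at this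
      exact absurd this (by decide)
    | true =>
      rw [hb, cond_true] at hgo
      cases hb2 : Nat.ble k left with
      | false =>
        rw [hb2, cond_false] at hgo
        have hlt : left < k := by
          by_contra h
          have h' : k ≤ left := by omega
          have := Nat.ble_eq.mpr h'
          rw [this] at hb2
          exact absurd hb2 (by decide)
        have hex : ∃ i, s.testBit i = true ∧ i ∉ S := by
          by_contra hcon
          push Not at hcon
          have h1 := pc_le S (Nat.succ left) s hcon
          rw [hk] at h1
          have h2 : (S.filter (fun i => s.testBit i = true)).card ≤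
              (S.filter (fun i => A.testBit i = true)).card := by
            apply Finset.card_le_card
            intro j hj
            rw [Finset.mem_filter] at hj ⊢
            exact ⟨hj.1, (hsbit j hj.2).2.2⟩
          have h3 := hinv.2
          omega
        obtain ⟨i, hi, hiS⟩ := hex
        exact hcons ⟨i, (hsbit i hi).1, (hsbit i hi).2.1, hiS⟩ (ihl c cs P r hgo hinv)
      | true =>
        rw [hb2, cond_true] at hgo
        cases hb3 : Nat.beq k 0 with
        | true =>
          rw [hb3, cond_true] at hgo
          exact absurd hgo (by simp)
        | false =>
          rw [hb3, cond_false] at hgo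
          cases hres : ih c cs (Nat.xor A s) P (Nat.sub left k) with
          | none =>
            rw [hres] at hgo
            exact absurd hgo (by simp)
          | some p =>
            rw [hres] at hgo
            have hgo' : go ih (incD d) A left l p.1 p.2
                  (cond (and (Nat.beq k 1) (Nat.beq s (Nat.pow 2 (Nat.log2 s))))
                    (Nat.lor P s) P) = some r := hgo
            by_cases hall : ∀ i, s.testBit i = true → i ∈ S
            · left
              refine hih _ _ _ _ _ _ hres S ⟨hinv.1, ?_⟩
              have h1 := pc_le S (Nat.succ left) s hall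
              rw [hk] at h1
              have h2 : (S.filter (fun i => (Nat.xor A s).testBit i = true)) ⊆
                  (S.filter (fun i => A.testBit i = true)) \
                    (S.filter (fun i => s.testBit i = true)) := by
                intro j hj
                rw [Finset.mem_filter] at hj
                rw [Finset.mem_sdiff, Finset.mem_filter, Finset.mem_filter]
                have h3 := hj.2
                rw [tb_xor] at h3
                cases hsj : s.testBit j with
                | true =>
                  have h4 := (hsbit j hsj).2.2
                  rw [h4, hsj] at h3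
                  exact absurd h3 (by decide)
                | false =>
                  rw [hsj] at h3
                  simp at h3
                  exact ⟨⟨hj.1, h3⟩, fun h => absurd h.2 (by decide)⟩
              have h3 : (S.filter (fun i => s.testBit i = true)) ⊆
                  (S.filter (fun i => A.testBit i = true)) := by
                intro j hj
                rw [Finset.mem_filter] at hj ⊢
                exact ⟨hj.1, (hsbit j hj.2).2.2⟩
              have h4 := Finset.card_le_card h2
              rw [Finset.card_sdiff_of_subset h3] at h4
              have h5 := hinv.2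
              have h6 : Nat.sub left k = left - k := rfl
              rw [h6]
              omega
            · push Not at hall
              obtain ⟨i, hi, hiS⟩ := hall
              have hwit : Wit S d iv := ⟨i, (hsbit i hi).1, (hsbit i hi).2.1, hiS⟩
              refine hcons hwit (ihl p.1 p.2 _ r hgo' ⟨?_, hinv.2⟩)
              intro j hj
              cases hc : (and (Nat.beq k 1) (Nat.beq s (Nat.pow 2 (Nat.log2 s)))) with
              | false =>
                rw [cond_false]
                exact hinv.1 j hj
              | true =>
                rw [cond_true, tb_lor, hinv.1 j hj, Bool.false_or]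
                have hs2 : s = 2 ^ (Nat.log2 s) := by
                  have := (Bool.and_eq_true _ _).mp hc
                  exact Nat.eq_of_beq_eq_true this.2
                cases hsj : s.testBit j with
                | false => rfl
                | true =>
                  exfalso
                  rw [hs2, Nat.testBit_two_pow] at hsj hi
                  simp at hsj hi
                  apply hiS
                  rw [← hi, hsj]
                  exact hj

theorem all0_sound (dA : Nat) : ∀ l : List Nat, all0 dA l = true →
    ∀ iv ∈ l, ∃ i, iv.testBit i = true ∧ dA.testBit i = true := by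
  intro l
  induction l with
  | nil =>
    intro _ iv hiv
    simp at hiv
  | cons a l ih =>
    intro h iv hiv
    have h' : cond (Nat.beq (Nat.land a dA) 0) false (all0 dA l) = true := h
    cases hb : Nat.beq (Nat.land a dA) 0 with
    | true =>
      rw [hb] at h'
      exact absurd h' (by simp)
    | false =>
      rw [hb, cond_false] at h'
      rcases List.mem_cons.mp hiv with h3 | h3
      · rw [h3]
        obtain ⟨i, hi⟩ := exists_bit hb
        rw [tb_land] at hi
        simp at hi
        exact ⟨i, hi.1, hi.2⟩
      · exact ih h' iv h3

theorem node_sound (ih : Nat → List Nat → Nat → Nat → Nat → Res)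
    (hih : ∀ c cs A P left r, ih c cs A P left = some r → GoodSt A P left)
    (c : Nat) (cs : List Nat) (A P left : Nat) (r : Nat × List Nat)
    (h : node ih c cs A P left = some r) : GoodSt A P left := by
  intro S hinv
  unfold node at h
  cases hb : Nat.beq left 0 with
  | true =>
    rw [hb, cond_true] at h
    cases hb2 : all0 (Nat.land (incD (Nat.land c 0x3fffffff)) A) incs with
    | false =>
      rw [hb2, cond_false] at h
      exact absurd h (by simp)
    | true =>
      refine ⟨Nat.land c 0x3fffffff, ?_⟩
      intro iv hiv
      obtain ⟨i, hi1, hi2⟩ := all0_sound _ _ hb2 iv hiv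
      rw [tb_land] at hi2
      simp only [Bool.and_eq_true] at hi2
      refine ⟨i, hi1, hi2.1, ?_⟩
      intro hiS
      have hl : left = 0 := Nat.eq_of_beq_eq_true hb
      have h0 := hinv.2
      rw [hl] at h0
      have h1 : (S.filter (fun i => A.testBit i = true)) = ∅ :=
        Finset.card_eq_zero.mp (Nat.le_zero.mp h0)
      have h2 : i ∈ (S.filter (fun i => A.testBit i = true)) := by
        rw [Finset.mem_filter]
        exact ⟨hiS, hi2.2⟩
      rw [h1] at h2
      simp at h2
  | false =>
    rw [hb, cond_false] at h
    rcases go_sound ih hih _ A left S incs _ _ P r h hinv with h1 | h1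
    · exact h1
    · exact ⟨_, h1⟩

theorem run_sound : ∀ (fuel : Nat) (c : Nat) (cs : List Nat) (A P left : Nat)
    (r : Nat × List Nat), run fuel c cs A P left = some r → GoodSt A P left := by
  intro fuel
  induction fuel with
  | zero =>
    intro c cs A P left r h
    exact absurd h (by simp [run])
  | succ fuel ih =>
    intro c cs A P left r h
    have h' : cond (Nat.beq c 0)
        (List.rec (motive := fun _ => Res) none
          (fun c' cs' _ => node (run fuel) c' cs' A P left) cs)
        (node (run fuel) c cs A P left) = some r := h
    cases hb : Nat.beq c 0 with
    | true =>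
      rw [hb, cond_true] at h'
      cases cs with
      | nil => exact absurd h' (by simp)
      | cons c' cs' => exact node_sound (run fuel) ih c' cs' A P left r h'
    | false =>
      rw [hb, cond_false] at h'
      exact node_sound (run fuel) ih c cs A P left r h'

theorem run_isSome {fuel : Nat} {c : Nat} {cs : List Nat} {A P left : Nat}
    (h : (run fuel c cs A P left).isSome = true) : GoodSt A P left := by
  obtain ⟨r, hr⟩ := Option.isSome_iff_exists.mp h
  exact run_sound fuel c cs A P left r hr

/-- accepts exactly the states of a given list -/
def orc (L : List (Nat × Nat × Nat)) : Nat → List Nat → Nat → Nat → Nat → Res :=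
  fun c cs A P left =>
    cond (L.any (fun t => Nat.beq t.1 A && Nat.beq t.2.1 P && Nat.beq t.2.2 left))
      (some (c, cs)) none

theorem orc_sound (L : List (Nat × Nat × Nat)) (hL : ∀ t ∈ L, GoodSt t.1 t.2.1 t.2.2)
    (c : Nat) (cs : List Nat) (A P left : Nat) (r : Nat × List Nat)
    (h : orc L c cs A P left = some r) : GoodSt A P left := by
  unfold orc at h
  cases hb : L.any (fun t => Nat.beq t.1 A && Nat.beq t.2.1 P && Nat.beq t.2.2 left) with
  | false =>
    rw [hb] at h
    exact absurd h (by simp)
  | true =>
    rw [List.any_eq_true] at hb
    obtain ⟨t, ht, h2⟩ := hb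
    simp only [Bool.and_eq_true] at h2
    have e1 := Nat.eq_of_beq_eq_true h2.1.1
    have e2 := Nat.eq_of_beq_eq_true h2.1.2
    have e3 := Nat.eq_of_beq_eq_true h2.2
    have := hL t ht
    rw [e1, e2, e3] at this
    exact this

theorem split_isSome {L : List (Nat × Nat × Nat)} (hL : ∀ t ∈ L, GoodSt t.1 t.2.1 t.2.2)
    {d A P left : Nat} (h : (go (orc L) (incD d) A left incs 0 [] P).isSome = true) :
    GoodSt A P left := by
  obtain ⟨r, hr⟩ := Option.isSome_iff_exists.mp h
  intro S hinv
  rcases go_sound (orc L) (orc_sound L hL) d A left S incs 0 [] P r hr hinv with h1 | h1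
  · exact h1
  · exact ⟨_, h1⟩

end Pool.Agent.Bond
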