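import Pool.Agent.Lib.MP_484915_co.Graph

set_option autoImplicit false

namespace Pool.Agent.Bond

/-- integer coordinates of the vertices -/
def xy : List (Int × Int) :=
  [(13, 0), (1, 13), (-12, 0), (-1, -12), (3, 5), (-6, 4), (-5, -2), (5, -4), (6, 1), (0, 6), (-5, 2), (1, -4), (2, 1), (-2, 2), (-2, 0), (3, -1), (8, 9), (-8, 10), (-9, -7), (9, -8), (23, -3), (2, 19), (-19, -1), (-1, -21), (30, 29), (-30, 30), (-32, -32), (29, -31)]

def px (v : Nat) : Int := (xy.getD v (0, 0)).1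
def py (v : Nat) : Int := (xy.getD v (0, 0)).2

/-- twice the oriented area of the triangle `u v w` -/
def cr (u v w : Nat) : Int := (px v - px u) * (py w - py u) - (py v - py u) * (px w - px u)

theorem xy_inj : ∀ u v : Fin 28, px u.1 = px v.1 → py u.1 = py v.1 → u = v := by
  decide +kernel

theorem cr_vert : ∀ i : Fin 76, ∀ w : Fin 28, w.1 ≠ ea i.1 → w.1 ≠ eb i.1 →
    cr (ea i.1) (eb i.1) w.1 ≠ 0 := by
  decide +kernel

def sideOK (u v x y : Nat) : Bool :=
  ((decide (0 ≤ cr u v x) && decide (0 ≤ cr u v y)) ||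
    (decide (cr u v x ≤ 0) && decide (cr u v y ≤ 0))) &&
  !(decide (cr u v x = 0) && decide (cr u v y = 0))

theorem pairs_ok : ∀ i j : Fin 76, i ≠ j →
    (sideOK (ea i.1) (eb i.1) (ea j.1) (eb j.1) || sideOK (ea j.1) (eb j.1) (ea i.1) (eb i.1)) =
      true := by
  decide +kernel

/-- position of a vertex in the plane -/
noncomputable def pos (v : Fin 28) : ℝ × ℝ := ((px v.1 : ℝ), (py v.1 : ℝ))

theorem pos_inj : Function.Injective pos := by
  intro u v h
  unfold pos at h
  rw [Prod.mk.injEq] at h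
  exact xy_inj u v (by exact_mod_cast h.1) (by exact_mod_cast h.2)

/-- the straight path -/
noncomputable def seg (a b : ℝ × ℝ) : Path a b where
  toFun t := (a.1 + t.1 * (b.1 - a.1), a.2 + t.1 * (b.2 - a.2))
  continuous_toFun := by fun_prop
  source' := by simp
  target' := by simp

theorem seg_apply (a b : ℝ × ℝ) (t : unitInterval) :
    seg a b t = (a.1 + t.1 * (b.1 - a.1), a.2 + t.1 * (b.2 - a.2)) := rfl

/-- `q` is an interior point of the segment `a b` -/
def On (a b q : ℝ × ℝ) : Prop :=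
  ∃ t : ℝ, 0 < t ∧ t < 1 ∧ q = (a.1 + t * (b.1 - a.1), a.2 + t * (b.2 - a.2))

theorem On_symm {a b q : ℝ × ℝ} (h : On a b q) : On b a q := by
  obtain ⟨t, h0, h1, h2⟩ := h
  refine ⟨1 - t, by linarith, by linarith, ?_⟩
  rw [h2, Prod.mk.injEq]
  constructor <;> ring

theorem On_seg {a b : ℝ × ℝ} {t : unitInterval} (h0 : t ≠ 0) (h1 : t ≠ 1) :
    On a b (seg a b t) := by
  refine ⟨t.1, ?_, ?_, seg_apply a b t⟩
  · exact lt_of_le_of_ne t.2.1 (fun h => h0 (Subtype.ext h.symm))
  · exact lt_of_le_of_ne t.2.2 (fun h => h1 (Subtype.ext h))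

/-- real version of the oriented area -/
noncomputable def crR (a b q : ℝ × ℝ) : ℝ :=
  (b.1 - a.1) * (q.2 - a.2) - (b.2 - a.2) * (q.1 - a.1)

theorem crR_pos (u v w : Fin 28) : crR (pos u) (pos v) (pos w) = (cr u.1 v.1 w.1 : ℝ) := by
  unfold crR pos cr
  push_cast
  ring

theorem crR_On {a b q : ℝ × ℝ} (h : On a b q) : crR a b q = 0 := by
  obtain ⟨t, _, _, h2⟩ := h
  rw [h2]
  unfold crR
  ring

theorem crR_comb (a b c d : ℝ × ℝ) (t : ℝ) :
    crR a b (c.1 + t * (d.1 - c.1), c.2 + t * (d.2 - c.2)) =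
      (1 - t) * crR a b c + t * crR a b d := by
  unfold crR
  ring

theorem no_cross {u v x y : Fin 28} (h : sideOK u.1 v.1 x.1 y.1 = true) {q : ℝ × ℝ}
    (h1 : On (pos u) (pos v) q) (h2 : On (pos x) (pos y) q) : False := by
  have e1 := crR_On h1
  obtain ⟨t, h0, h1', hq⟩ := h2
  rw [hq, crR_comb, crR_pos, crR_pos] at e1
  unfold sideOK at h
  simp only [Bool.and_eq_true, Bool.or_eq_true, decide_eq_true_eq, Bool.not_eq_true',
    Bool.and_eq_false_iff, decide_eq_false_iff_not] at h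
  obtain ⟨hs, hn⟩ := h
  have ht : 0 < 1 - t := by linarith
  rcases hs with ⟨hx, hy⟩ | ⟨hx, hy⟩
  · have hx' : (0 : ℝ) ≤ (cr u.1 v.1 x.1 : ℝ) := by exact_mod_cast hx
    have hy' : (0 : ℝ) ≤ (cr u.1 v.1 y.1 : ℝ) := by exact_mod_cast hy
    have p1 := mul_nonneg ht.le hx'
    have p2 := mul_nonneg h0.le hy'
    rcases hn with hn | hn
    · have hx2 : (cr u.1 v.1 x.1 : ℝ) ≠ 0 := by exact_mod_cast hn
      have p3 := mul_pos ht (lt_of_le_of_ne hx' (Ne.symm hx2))
      linarith
    · have hy2 : (cr u.1 v.1 y.1 : ℝ) ≠ 0 := by exact_mod_cast hn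
      have p3 := mul_pos h0 (lt_of_le_of_ne hy' (Ne.symm hy2))
      linarith
  · have hx' : (cr u.1 v.1 x.1 : ℝ) ≤ 0 := by exact_mod_cast hx
    have hy' : (cr u.1 v.1 y.1 : ℝ) ≤ 0 := by exact_mod_cast hy
    have p1 := mul_nonpos_of_nonneg_of_nonpos ht.le hx'
    have p2 := mul_nonpos_of_nonneg_of_nonpos h0.le hy'
    rcases hn with hn | hn
    · have hx2 : (cr u.1 v.1 x.1 : ℝ) ≠ 0 := by exact_mod_cast hn
      have p3 := mul_neg_of_pos_of_neg ht (lt_of_le_of_ne hx' hx2)
      linarith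
    · have hy2 : (cr u.1 v.1 y.1 : ℝ) ≠ 0 := by exact_mod_cast hn
      have p3 := mul_neg_of_pos_of_neg h0 (lt_of_le_of_ne hy' hy2)
      linarith

/-- endpoints of edge number `i` as vertices -/
def va (i : Fin 76) : Fin 28 := ⟨ea i.1, (ee_adj i).2.1⟩
def vb (i : Fin 76) : Fin 28 := ⟨eb i.1, (ee_adj i).2.2⟩

theorem ee_eq (i : Fin 76) : ee i.1 = s(va i, vb i) := by
  have h1 : Fin.ofNat 28 (ea i.1) = va i := Fin.ext (Nat.mod_eq_of_lt (ee_adj i).2.1)
  have h2 : Fin.ofNat 28 (eb i.1) = vb i := Fin.ext (Nat.mod_eq_of_lt (ee_adj i).2.2)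
  unfold ee
  rw [h1, h2]

theorem On_edge {u v : Fin 28} {i : Fin 76} (h : s(u, v) = ee i.1) {q : ℝ × ℝ}
    (hq : On (pos u) (pos v) q) : On (pos (va i)) (pos (vb i)) q := by
  rw [ee_eq, Sym2.eq_iff] at h
  rcases h with ⟨h1, h2⟩ | ⟨h1, h2⟩
  · rw [← h1, ← h2]
    exact hq
  · rw [← h1, ← h2]
    exact On_symm hq

theorem edge_cross {u v x y : Fin 28} (h1 : G.Adj u v) (h2 : G.Adj x y)
    (hne : s(u, v) ≠ s(x, y)) {q : ℝ × ℝ} (hq1 : On (pos u) (pos v) q)
    (hq2 : On (pos x) (pos y) q) : False := by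
  obtain ⟨i, hi⟩ := edge_index u v h1
  obtain ⟨j, hj⟩ := edge_index x y h2
  have hij : i ≠ j := by
    intro h
    apply hne
    rw [hi, hj, h]
  have hq1' := On_edge hi hq1
  have hq2' := On_edge hj hq2
  have hp := pairs_ok i j hij
  rw [Bool.or_eq_true] at hp
  rcases hp with hp | hp
  · exact no_cross (u := va i) (v := vb i) (x := va j) (y := vb j) hp hq1' hq2'
  · exact no_cross (u := va j) (v := vb j) (x := va i) (y := vb i) hp hq2' hq1'

theorem vert_avoid {u v : Fin 28} (h : G.Adj u v) (w : Fin 28)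
    (hq : On (pos u) (pos v) (pos w)) : False := by
  obtain ⟨i, hi⟩ := edge_index u v h
  have hq' := On_edge hi hq
  have hvne : pos (va i) ≠ pos (vb i) := by
    intro hp
    have h1 := pos_inj hp
    have h2 := (ee_adj i).1
    have h3 : adjB (va i).1 (vb i).1 = true := h2
    rw [h1] at h3
    exact adjB_irrefl _ h3
  by_cases hwa : w = va i
  · rw [hwa] at hq'
    obtain ⟨t, h0, _, he⟩ := hq'
    apply hvne
    have e1 := congrArg Prod.fst he
    have e2 := congrArg Prod.snd he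
    simp only at e1 e2
    have f1 : t * ((pos (vb i)).1 - (pos (va i)).1) = 0 := by linarith
    have f2 : t * ((pos (vb i)).2 - (pos (va i)).2) = 0 := by linarith
    apply Prod.ext
    · rcases mul_eq_zero.mp f1 with h | h <;> linarith
    · rcases mul_eq_zero.mp f2 with h | h <;> linarith
  · by_cases hwb : w = vb i
    · rw [hwb] at hq'
      obtain ⟨t, _, h1, he⟩ := hq'
      apply hvne
      have e1 := congrArg Prod.fst he
      have e2 := congrArg Prod.snd he
      simp only at e1 e2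
      have f1 : (1 - t) * ((pos (vb i)).1 - (pos (va i)).1) = 0 := by linarith
      have f2 : (1 - t) * ((pos (vb i)).2 - (pos (va i)).2) = 0 := by linarith
      apply Prod.ext
      · rcases mul_eq_zero.mp f1 with h | h <;> linarith
      · rcases mul_eq_zero.mp f2 with h | h <;> linarith
    · have h1 := crR_On hq'
      rw [crR_pos] at h1
      have h2 := cr_vert i w (fun h => hwa (Fin.ext h)) (fun h => hwb (Fin.ext h))
      exact h2 (by exact_mod_cast h1)

theorem seg_inj {u v : Fin 28} (h : G.Adj u v) :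
    Function.Injective (⇑(seg (pos u) (pos v))) := by
  intro s t hst
  have hvne : pos u ≠ pos v := by
    intro hp
    have h1 := pos_inj hp
    rw [h1] at h
    exact G.loopless.irrefl _ h
  rw [seg_apply, seg_apply, Prod.mk.injEq] at hst
  by_contra hne
  have hne' : (s : ℝ) - (t : ℝ) ≠ 0 := fun h0 => hne (Subtype.ext (by linarith))
  apply hvne
  have f1 : ((s : ℝ) - (t : ℝ)) * ((pos v).1 - (pos u).1) = 0 := by linarith [hst.1]
  have f2 : ((s : ℝ) - (t : ℝ)) * ((pos v).2 - (pos u).2) = 0 := by linarith [hst.2]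
  apply Prod.ext
  · rcases mul_eq_zero.mp f1 with h | h
    · exact absurd h hne'
    · linarith
  · rcases mul_eq_zero.mp f2 with h | h
    · exact absurd h hne'
    · linarith

end Pool.Agent.Bond
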