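import Pool.Agent.Lib.MP_484915_co.Graph

set_option autoImplicit false

namespace Pool.Agent.Bond

/-- closed neighbourhoods as 28-digit masks, packed -/
def CN : Nat :=
  0xd980000ec400007620000b310000c8c000864600043230002919000189800094c4000c26200061310003000d980000ec400007620000b310000c8c800064640003232000919100089890004c4c0002626000131308c08cd046046e0230237019019b

/-- closed neighbourhoods as lists -/
def cnl : List (List Nat) :=
  [[0, 1, 3, 4, 7, 8, 16, 19, 20],
   [0, 1, 2, 4, 5, 9, 16, 17, 21],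
   [1, 2, 3, 5, 6, 10, 17, 18, 22],
   [0, 2, 3, 6, 7, 11, 18, 19, 23],
   [0, 1, 4, 8, 9, 12],
   [1, 2, 5, 9, 10, 13],
   [2, 3, 6, 10, 11, 14],
   [0, 3, 7, 8, 11, 15],
   [0, 4, 7, 8, 12, 15],
   [1, 4, 5, 9, 12, 13],
   [2, 5, 6, 10, 13, 14],
   [3, 6, 7, 11, 14, 15],
   [4, 8, 9, 12, 13, 15],
   [5, 9, 10, 12, 13, 14],
   [6, 10, 11, 13, 14, 15],
   [7, 8, 11, 12, 14, 15],
   [0, 1, 16, 20, 21, 24],
   [1, 2, 17, 21, 22, 25],
   [2, 3, 18, 22, 23, 26],
   [0, 3, 19, 20, 23, 27],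
   [0, 16, 19, 20, 24, 27],
   [1, 16, 17, 21, 24, 25],
   [2, 17, 18, 22, 25, 26],
   [3, 18, 19, 23, 26, 27],
   [16, 20, 21, 24, 25, 27],
   [17, 21, 22, 24, 25, 26],
   [18, 22, 23, 25, 26, 27],
   [19, 20, 23, 24, 26, 27]]

def nb (w : Nat) : Nat := Nat.land (Nat.shiftRight CN (Nat.mul 28 w)) 0xfffffff

def und (dom : Nat) : Nat := Nat.xor 0xfffffff (Nat.land dom 0xfffffff)

noncomputable def nod (l : Nat) : Nat → Bool :=
  Nat.rec (motive := fun _ => Nat → Bool) (fun dom => not (Nat.beq (und dom) 0))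
    (fun _ ih dom => and (not (Nat.beq (und dom) 0))
      ((cnl.getD (Nat.log2 (und dom)) []).all (fun w => ih (Nat.lor dom (nb w))))) l

theorem nod5 : nod 5 0 = true := by
  decide +kernel

theorem cnl_mem : ∀ v w : Fin 28, (nb w.1).testBit v.1 = true → w.1 ∈ cnl.getD v.1 [] := by
  decide +kernel

theorem nb_adj : ∀ v w : Fin 28, (v = w ∨ adjB w.1 v.1 = true) → (nb w.1).testBit v.1 = true := by
  decide +kernel

theorem full_bit (i : Nat) : (0xfffffff : Nat).testBit i = decide (i < 28) := by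
  have h1 : (0xfffffff : Nat) = 2 ^ 28 - 1 := by norm_num
  rw [h1, Nat.testBit_two_pow_sub_one]

theorem und_bit {dom i : Nat} (h : (und dom).testBit i = true) :
    i < 28 ∧ dom.testBit i = false := by
  unfold und at h
  rw [tb_xor, tb_land, full_bit] at h
  by_cases hi : i < 28
  · refine ⟨hi, ?_⟩
    cases hd : dom.testBit i with
    | false => rfl
    | true =>
      rw [hd] at h
      simp [hi] at h
  · simp [hi] at h

theorem nod_sound : ∀ (l dom : Nat), nod l dom = true → ∀ D : Finset (Fin 28), D.card ≤ l →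
    ∃ v : Fin 28, dom.testBit v.1 = false ∧ ∀ w ∈ D, (nb w.1).testBit v.1 = false := by
  intro l
  induction l with
  | zero =>
    intro dom h D hD
    have hD0 : D = ∅ := Finset.card_eq_zero.mp (Nat.le_zero.mp hD)
    have h' : not (Nat.beq (und dom) 0) = true := h
    have hb : Nat.beq (und dom) 0 = false := by simpa using h'
    obtain ⟨i, hi⟩ := exists_bit hb
    have h2 := und_bit hi
    refine ⟨⟨i, h2.1⟩, h2.2, ?_⟩
    intro w hw
    rw [hD0] at hw
    simp at hw
  | succ l ih =>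
    intro dom h D hD
    have h' : and (not (Nat.beq (und dom) 0))
      ((cnl.getD (Nat.log2 (und dom)) []).all (fun w => nod l (Nat.lor dom (nb w)))) = true := h
    rw [Bool.and_eq_true] at h'
    have hb : Nat.beq (und dom) 0 = false := by simpa using h'.1
    have hne : und dom ≠ 0 := by
      intro h1
      rw [h1] at hb
      simp at hb
    have htop : (und dom).testBit (Nat.log2 (und dom)) = true := Nat.testBit_log2 hne
    have h2 := und_bit htop
    by_cases hex : ∃ w ∈ D, (nb w.1).testBit (Nat.log2 (und dom)) = true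
    · obtain ⟨w, hw, hwb⟩ := hex
      have hmem := cnl_mem ⟨_, h2.1⟩ w hwb
      have h3 := List.all_eq_true.mp h'.2 w.1 hmem
      obtain ⟨v', hv1, hv2⟩ := ih _ h3 (D.erase w) (by
        rw [Finset.card_erase_of_mem hw]
        omega)
      rw [tb_lor] at hv1
      simp only [Bool.or_eq_false_iff] at hv1
      refine ⟨v', hv1.1, ?_⟩
      intro w' hw'
      by_cases hww : w' = w
      · rw [hww]
        exact hv1.2
      · exact hv2 w' (Finset.mem_erase.mpr ⟨hww, hw'⟩)
    · refine ⟨⟨_, h2.1⟩, h2.2, ?_⟩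
      intro w hw
      by_contra hcon
      apply hex
      refine ⟨w, hw, ?_⟩
      simpa using hcon

theorem gamma_ge (D : Finset (Fin 28)) (h : ∀ v : Fin 28, v ∈ D ∨ ∃ u ∈ D, G.Adj u v) :
    6 ≤ D.card := by
  by_contra hcon
  have hc : D.card ≤ 5 := by omega
  obtain ⟨v, _, hv⟩ := nod_sound 5 0 nod5 D hc
  rcases h v with h1 | ⟨u, hu, hadj⟩
  · have h2 := hv v h1
    rw [nb_adj v v (Or.inl rfl)] at h2
    exact absurd h2 (by decide)
  · have h2 := hv u hu
    rw [nb_adj v u (Or.inr hadj)] at h2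
    exact absurd h2 (by decide)

/-- a set of seven edges whose removal raises the domination number -/
def E0 : Finset (Sym2 (Fin 28)) :=
  {s(0, 8), s(4, 8), s(7, 8), s(8, 12), s(8, 15), s(1, 4), s(4, 9)}

theorem E0_card : E0.card ≤ 8 := by
  decide +kernel

theorem E0_sub : ∀ e ∈ E0, e ∈ G.edgeSet := by
  unfold E0
  simp only [Finset.mem_insert, Finset.mem_singleton, forall_eq_or_imp, forall_eq,
    SimpleGraph.mem_edgeSet]
  refine ⟨?_, ?_, ?_, ?_, ?_, ?_, ?_⟩ <;> decide +kernel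

theorem iso8 : ∀ u : Fin 28, adjB u.1 8 = true → s(u, (8 : Fin 28)) ∈ E0 := by
  decide +kernel

theorem near4 : ∀ u : Fin 28, adjB u.1 4 = true → s(u, (4 : Fin 28)) ∉ E0 →
    adjB u.1 8 = true ∧ u ≠ 8 := by
  decide +kernel

theorem a48 : adjB 4 8 = true := by decide +kernel

theorem gamma_E0 (D : Finset (Fin 28))
    (h : ∀ v : Fin 28, v ∈ D ∨ ∃ u ∈ D, (G.deleteEdges (↑E0 : Set (Sym2 (Fin 28)))).Adj u v) :
    7 ≤ D.card := by
  have h8 : (8 : Fin 28) ∈ D := by
    rcases h 8 with h1 | ⟨u, _, hadj⟩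
    · exact h1
    · exfalso
      rw [SimpleGraph.deleteEdges_adj] at hadj
      exact hadj.2 (Finset.mem_coe.mpr (iso8 u hadj.1))
  have hdom : ∀ v : Fin 28, v ∈ D.erase 8 ∨ ∃ u ∈ D.erase 8, G.Adj u v := by
    intro v
    by_cases hv8 : v = 8
    · right
      rcases h 4 with h1 | ⟨u, hu, hadj⟩
      · refine ⟨4, Finset.mem_erase.mpr ⟨by decide, h1⟩, ?_⟩
        rw [hv8]
        exact a48
      · rw [SimpleGraph.deleteEdges_adj] at hadj
        have h2 := near4 u hadj.1 (fun hm => hadj.2 (Finset.mem_coe.mpr hm))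
        refine ⟨u, Finset.mem_erase.mpr ⟨h2.2, hu⟩, ?_⟩
        rw [hv8]
        exact h2.1
    · rcases h v with h1 | ⟨u, hu, hadj⟩
      · left
        exact Finset.mem_erase.mpr ⟨hv8, h1⟩
      · right
        rw [SimpleGraph.deleteEdges_adj] at hadj
        refine ⟨u, Finset.mem_erase.mpr ⟨?_, hu⟩, hadj.1⟩
        intro hu8
        rw [hu8] at hadj
        apply hadj.2
        apply Finset.mem_coe.mpr
        rw [Sym2.eq_swap]
        exact iso8 v (adjB_symm 8 v hadj.1)
  have h1 := gamma_ge _ hdom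
  rw [Finset.card_erase_of_mem h8] at h1
  omega

end Pool.Agent.Bond
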