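import Pool.Agent.Lib.MP_484915_co.Cert

set_option autoImplicit false

namespace Pool.Agent.Bond

def adjB (u v : Nat) : Bool :=
  edL.any (fun e => (Nat.beq e.1 u && Nat.beq e.2 v) || (Nat.beq e.1 v && Nat.beq e.2 u))

theorem adjB_symm : ∀ u v : Fin 28, adjB u.1 v.1 = true → adjB v.1 u.1 = true := by
  decide +kernel

theorem adjB_irrefl : ∀ u : Fin 28, ¬ adjB u.1 u.1 = true := by
  decide +kernel

/-- the graph -/
def G : SimpleGraph (Fin 28) where
  Adj u v := adjB u.1 v.1 = true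
  symm := ⟨fun u v h => adjB_symm u v h⟩
  loopless := ⟨fun u h => adjB_irrefl u h⟩

instance : DecidableRel G.Adj := fun u v => inferInstanceAs (Decidable (adjB u.1 v.1 = true))

/-- edge number `i` -/
def ee (i : Nat) : Sym2 (Fin 28) := s(Fin.ofNat 28 (ea i), Fin.ofNat 28 (eb i))

theorem edge_index : ∀ u v : Fin 28, adjB u.1 v.1 = true → ∃ i : Fin 76, s(u, v) = ee i.1 := by
  decide +kernel

theorem ee_adj : ∀ i : Fin 76, adjB (ea i.1) (eb i.1) = true ∧ ea i.1 < 28 ∧ eb i.1 < 28 := by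
  decide +kernel

theorem ee_inj : ∀ i j : Fin 76, ee i.1 = ee j.1 → i = j := by
  decide +kernel

def incB (v i : Nat) : Bool :=
  cond (Nat.ble i 75) (Nat.beq v (ea i) || Nat.beq v (eb i)) (Nat.beq (76 + v) i)

theorem INC_bits : ∀ v : Fin 32, ∀ i : Fin 104, INC.testBit (104 * v.1 + i.1) = true →
    v.1 < 28 ∧ incB v.1 i.1 = true := by
  decide +kernel

def incOf (v : Nat) : Nat := Nat.land (ent v) 0xffffffffffffffffffffffffff

theorem incOf_mem : ∀ v : Fin 28, incOf v.1 ∈ incs := by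
  decide +kernel

theorem mask_bit (i : Nat) (h : (0xffffffffffffffffffffffffff : Nat).testBit i = true) :
    i < 104 := by
  have h1 : (0xffffffffffffffffffffffffff : Nat) = 2 ^ 104 - 1 := by norm_num
  rw [h1, Nat.testBit_two_pow_sub_one] at h
  simpa using h

theorem ent_bit (v i : Nat) : (ent v).testBit i = INC.testBit (104 * v + i) := by
  unfold ent
  rw [tb_shr]
  rfl

theorem fld_lt (d k : Nat) : fld d k < 32 := by
  have : fld d k ≤ 31 := Nat.and_le_right
  omega

theorem incD_bit {d i : Nat} (h : (incD d).testBit i = true) :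
    i < 104 ∧ ∃ k, k < 6 ∧ INC.testBit (104 * fld d k + i) = true := by
  unfold incD at h
  rw [tb_land, tb_lor, tb_lor, tb_lor, tb_lor, tb_lor] at h
  simp only [Bool.and_eq_true, Bool.or_eq_true, ent_bit] at h
  refine ⟨mask_bit i h.2, ?_⟩
  rcases h.1 with ((h1 | h1) | (h1 | h1)) | (h1 | h1)
  · exact ⟨0, by norm_num, h1⟩
  · exact ⟨1, by norm_num, h1⟩
  · exact ⟨2, by norm_num, h1⟩
  · exact ⟨3, by norm_num, h1⟩
  · exact ⟨4, by norm_num, h1⟩
  · exact ⟨5, by norm_num, h1⟩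

/-- six vertices dominate the graph after removing the edges in `E` -/
def Surv (E : Finset (Sym2 (Fin 28))) : Prop :=
  ∃ D : Finset (Fin 28), D.card ≤ 6 ∧
    ∀ v : Fin 28, v ∈ D ∨ ∃ u ∈ D, (G.deleteEdges (↑E : Set (Sym2 (Fin 28)))).Adj u v

def SE (E : Finset (Sym2 (Fin 28))) : Finset Nat :=
  (Finset.range 76).filter (fun i => ee i ∈ E)

theorem SE_card (E : Finset (Sym2 (Fin 28))) : (SE E).card ≤ E.card := by
  apply Finset.card_le_card_of_injOn ee
  · intro i hi
    have hi' := Finset.mem_coe.mp hi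
    unfold SE at hi'
    rw [Finset.mem_filter] at hi'
    exact Finset.mem_coe.mpr hi'.2
  · intro i hi j hj hij
    have hi' := Finset.mem_coe.mp hi
    have hj' := Finset.mem_coe.mp hj
    unfold SE at hi' hj'
    rw [Finset.mem_filter, Finset.mem_range] at hi' hj'
    have := ee_inj ⟨i, hi'.1⟩ ⟨j, hj'.1⟩ hij
    exact congrArg Fin.val this

theorem surv_of_good (E : Finset (Sym2 (Fin 28))) (h : Good (SE E)) : Surv E := by
  obtain ⟨d, hd⟩ := h
  refine ⟨(Finset.range 6).image (fun k => Fin.ofNat 28 (fld d k)), ?_, ?_⟩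
  · exact le_trans Finset.card_image_le (by simp)
  · intro v
    obtain ⟨i, hi1, hi2, hi3⟩ := hd (incOf v.1) (incOf_mem v)
    unfold incOf at hi1
    rw [tb_land, ent_bit] at hi1
    simp only [Bool.and_eq_true] at hi1
    obtain ⟨hi104, k, hk, hbit⟩ := incD_bit hi2
    have hv := (INC_bits ⟨v.1, by omega⟩ ⟨i, hi104⟩ hi1.1).2
    have hw := INC_bits ⟨fld d k, fld_lt d k⟩ ⟨i, hi104⟩ hbit
    have hw1 : fld d k < 28 := hw.1
    have hw2 : incB (fld d k) i = true := hw.2
    have hv2 : incB v.1 i = true := hv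
    have hmem : (⟨fld d k, hw1⟩ : Fin 28) ∈
        (Finset.range 6).image (fun k => Fin.ofNat 28 (fld d k)) := by
      rw [Finset.mem_image]
      refine ⟨k, Finset.mem_range.mpr hk, ?_⟩
      apply Fin.ext
      exact Nat.mod_eq_of_lt hw1
    by_cases hvw : v.1 = fld d k
    · left
      have : v = ⟨fld d k, hw1⟩ := Fin.ext hvw
      rw [this]
      exact hmem
    · right
      refine ⟨_, hmem, ?_⟩
      unfold incB at hv2 hw2
      cases hb : Nat.ble i 75 with
      | false =>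
        rw [hb, cond_false] at hv2 hw2
        have e1 := Nat.eq_of_beq_eq_true hv2
        have e2 := Nat.eq_of_beq_eq_true hw2
        omega
      | true =>
        rw [hb, cond_true] at hv2 hw2
        simp only [Bool.or_eq_true] at hv2 hw2
        have hi76 : i < 76 := by
          have := Nat.ble_eq.mp hb
          omega
        have hne : ee i ∉ E := by
          intro hmemE
          apply hi3
          unfold SE
          rw [Finset.mem_filter, Finset.mem_range]
          exact ⟨hi76, hmemE⟩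
        have hadj := ee_adj ⟨i, hi76⟩
        have ha : ea i < 28 := hadj.2.1
        have hb' : eb i < 28 := hadj.2.2
        have hab : adjB (ea i) (eb i) = true := hadj.1
        have hee : ee i = s((⟨ea i, ha⟩ : Fin 28), ⟨eb i, hb'⟩) := by
          have h1 : Fin.ofNat 28 (ea i) = ⟨ea i, ha⟩ := Fin.ext (Nat.mod_eq_of_lt ha)
          have h2 : Fin.ofNat 28 (eb i) = ⟨eb i, hb'⟩ := Fin.ext (Nat.mod_eq_of_lt hb')
          unfold ee
          rw [h1, h2]
        rw [SimpleGraph.deleteEdges_adj]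
        rcases hv2 with hv3 | hv3 <;> rcases hw2 with hw3 | hw3
        · exfalso
          have e1 := Nat.eq_of_beq_eq_true hv3
          have e2 := Nat.eq_of_beq_eq_true hw3
          omega
        · have e1 : v = ⟨ea i, ha⟩ := Fin.ext (Nat.eq_of_beq_eq_true hv3)
          have e2 : (⟨fld d k, hw1⟩ : Fin 28) = ⟨eb i, hb'⟩ :=
            Fin.ext (Nat.eq_of_beq_eq_true hw3)
          rw [e2, e1]
          refine ⟨adjB_symm ⟨ea i, ha⟩ ⟨eb i, hb'⟩ hab, ?_⟩
          rw [Sym2.eq_swap, ← hee]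
          exact fun h => hne (Finset.mem_coe.mp h)
        · have e1 : v = ⟨eb i, hb'⟩ := Fin.ext (Nat.eq_of_beq_eq_true hv3)
          have e2 : (⟨fld d k, hw1⟩ : Fin 28) = ⟨ea i, ha⟩ :=
            Fin.ext (Nat.eq_of_beq_eq_true hw3)
          rw [e2, e1]
          refine ⟨hab, ?_⟩
          rw [← hee]
          exact fun h => hne (Finset.mem_coe.mp h)
        · exfalso
          have e1 := Nat.eq_of_beq_eq_true hv3
          have e2 := Nat.eq_of_beq_eq_true hw3
          omega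

/-! ### Symmetries -/

/-- the sixteen symmetries, as lists of images -/
def sgL : List (List Nat) :=
  [[0, 1, 2, 3, 4, 5, 6, 7, 8, 9, 10, 11, 12, 13, 14, 15, 16, 17, 18, 19, 20, 21, 22, 23, 24, 25, 26, 27],
   [1, 2, 3, 0, 5, 6, 7, 4, 9, 10, 11, 8, 13, 14, 15, 12, 17, 18, 19, 16, 21, 22, 23, 20, 25, 26, 27, 24],
   [2, 3, 0, 1, 6, 7, 4, 5, 10, 11, 8, 9, 14, 15, 12, 13, 18, 19, 16, 17, 22, 23, 20, 21, 26, 27, 24, 25],
   [3, 0, 1, 2, 7, 4, 5, 6, 11, 8, 9, 10, 15, 12, 13, 14, 19, 16, 17, 18, 23, 20, 21, 22, 27, 24, 25, 26],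
   [0, 3, 2, 1, 7, 6, 5, 4, 8, 11, 10, 9, 15, 14, 13, 12, 19, 18, 17, 16, 20, 23, 22, 21, 27, 26, 25, 24],
   [1, 0, 3, 2, 4, 7, 6, 5, 9, 8, 11, 10, 12, 15, 14, 13, 16, 19, 18, 17, 21, 20, 23, 22, 24, 27, 26, 25],
   [2, 1, 0, 3, 5, 4, 7, 6, 10, 9, 8, 11, 13, 12, 15, 14, 17, 16, 19, 18, 22, 21, 20, 23, 25, 24, 27, 26],
   [3, 2, 1, 0, 6, 5, 4, 7, 11, 10, 9, 8, 14, 13, 12, 15, 18, 17, 16, 19, 23, 22, 21, 20, 26, 25, 24, 27],
   [0, 1, 2, 3, 16, 17, 18, 19, 20, 21, 22, 23, 24, 25, 26, 27, 4, 5, 6, 7, 8, 9, 10, 11, 12, 13, 14, 15],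
   [1, 2, 3, 0, 17, 18, 19, 16, 21, 22, 23, 20, 25, 26, 27, 24, 5, 6, 7, 4, 9, 10, 11, 8, 13, 14, 15, 12],
   [2, 3, 0, 1, 18, 19, 16, 17, 22, 23, 20, 21, 26, 27, 24, 25, 6, 7, 4, 5, 10, 11, 8, 9, 14, 15, 12, 13],
   [3, 0, 1, 2, 19, 16, 17, 18, 23, 20, 21, 22, 27, 24, 25, 26, 7, 4, 5, 6, 11, 8, 9, 10, 15, 12, 13, 14],
   [0, 3, 2, 1, 19, 18, 17, 16, 20, 23, 22, 21, 27, 26, 25, 24, 7, 6, 5, 4, 8, 11, 10, 9, 15, 14, 13, 12],
   [1, 0, 3, 2, 16, 19, 18, 17, 21, 20, 23, 22, 24, 27, 26, 25, 4, 7, 6, 5, 9, 8, 11, 10, 12, 15, 14, 13],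
   [2, 1, 0, 3, 17, 16, 19, 18, 22, 21, 20, 23, 25, 24, 27, 26, 5, 4, 7, 6, 10, 9, 8, 11, 13, 12, 15, 14],
   [3, 2, 1, 0, 18, 17, 16, 19, 23, 22, 21, 20, 26, 25, 24, 27, 6, 5, 4, 7, 11, 10, 9, 8, 14, 13, 12, 15]]

/-- indices of the inverses -/
def invL : List Nat := [0, 3, 2, 1, 4, 5, 6, 7, 8, 11, 10, 9, 12, 13, 14, 15]

def act (g : Fin 16) (v : Fin 28) : Fin 28 := Fin.ofNat 28 ((sgL.getD g.1 []).getD v.1 0)

def inv (g : Fin 16) : Fin 16 := Fin.ofNat 16 (invL.getD g.1 0)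

theorem act_inv : ∀ g : Fin 16, ∀ v : Fin 28, act g (act (inv g) v) = v := by
  decide +kernel

theorem inv_act : ∀ g : Fin 16, ∀ v : Fin 28, act (inv g) (act g v) = v := by
  decide +kernel

theorem act_adj_list : ∀ g : Fin 16, ∀ i : Fin 76,
    adjB (act g (Fin.ofNat 28 (ea i.1))).1 (act g (Fin.ofNat 28 (eb i.1))).1 = true := by
  decide +kernel

theorem act_adj (g : Fin 16) (u v : Fin 28) (h : adjB u.1 v.1 = true) :
    adjB (act g u).1 (act g v).1 = true := by
  obtain ⟨i, hi⟩ := edge_index u v h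
  unfold ee at hi
  have h1 := act_adj_list g i
  rw [Sym2.eq_iff] at hi
  rcases hi with ⟨e1, e2⟩ | ⟨e1, e2⟩
  · rw [e1, e2]
    exact h1
  · rw [e1, e2]
    exact adjB_symm _ _ h1

theorem surv_of_image (E : Finset (Sym2 (Fin 28))) (g : Fin 16)
    (h : Surv (E.image (Sym2.map (act g)))) : Surv E := by
  obtain ⟨D, hD, hdom⟩ := h
  refine ⟨D.image (act (inv g)), le_trans Finset.card_image_le hD, ?_⟩
  intro v
  rcases hdom (act g v) with h1 | ⟨u, hu, hadj⟩
  · left
    rw [Finset.mem_image]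
    exact ⟨act g v, h1, inv_act g v⟩
  · right
    refine ⟨act (inv g) u, Finset.mem_image_of_mem _ hu, ?_⟩
    rw [SimpleGraph.deleteEdges_adj] at hadj ⊢
    constructor
    · have h2 := act_adj (inv g) u (act g v) hadj.1
      rw [inv_act] at h2
      exact h2
    · intro hmem
      apply hadj.2
      have h3 := Finset.mem_coe.mp hmem
      have h4 := Finset.mem_image_of_mem (Sym2.map (act g)) h3
      rw [Sym2.map_mk] at h4
      rw [act_inv] at h4
      exact Finset.mem_coe.mpr h4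

/-- weights of the four kinds of vertices -/
def cw (v : Fin 28) : Nat :=
  if v.1 < 4 then 0
  else if (v.1 - 4) % 12 < 4 then 1
  else if (v.1 - 4) % 12 < 8 then 3
  else 9

/-- the type of an edge -/
def kap : Sym2 (Fin 28) → Nat := Sym2.lift ⟨fun u v => cw u + cw v, fun _ _ => Nat.add_comm _ _⟩

theorem cw_act : ∀ g : Fin 16, ∀ v : Fin 28, cw (act g v) = cw v := by
  decide +kernel

theorem kap_map (g : Fin 16) (e : Sym2 (Fin 28)) : kap (Sym2.map (act g) e) = kap e := by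
  induction e using Sym2.ind with
  | _ u v =>
    rw [Sym2.map_mk]
    show cw (act g u) + cw (act g v) = cw u + cw v
    rw [cw_act, cw_act]

theorem to7 : ∀ i : Fin 76, kap (ee i.1) = 4 → ∃ g : Fin 16, Sym2.map (act g) (ee i.1) = ee 7 := by
  decide +kernel

theorem to10 : ∀ i : Fin 76, kap (ee i.1) = 12 →
    ∃ g : Fin 16, Sym2.map (act g) (ee i.1) = ee 10 := by
  decide +kernel

theorem to6 : ∀ i : Fin 76, kap (ee i.1) = 3 → ∃ g : Fin 16, Sym2.map (act g) (ee i.1) = ee 6 := by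
  decide +kernel

theorem P0_bits : ∀ i : Fin 76, Nat.testBit 0xfffffff0000000000000000000 i.1 = false := by
  decide +kernel

theorem P1_bits : ∀ i : Fin 76, kap (ee i.1) ≠ 4 →
    Nat.testBit 0xfffffff0c06030180c06030180 i.1 = false := by
  decide +kernel

theorem P2_bits : ∀ i : Fin 76, kap (ee i.1) ≠ 4 → kap (ee i.1) ≠ 12 →
    Nat.testBit 0xfffffff6c361b0d86c361b0d80 i.1 = false := by
  decide +kernel

theorem P3_bits : ∀ i : Fin 76, kap (ee i.1) ≠ 4 → kap (ee i.1) ≠ 12 → kap (ee i.1) ≠ 3 →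
    Nat.testBit 0xfffffff6e371b8dc6e371b8dc0 i.1 = false := by
  decide +kernel

theorem card_aux (S : Finset Nat) (A i : Nat) (hi : i ∈ S) (hA : A.testBit i = false)
    (hS : S.card ≤ 6) : (S.filter (fun i => A.testBit i = true)).card ≤ 5 := by
  have h1 : S.filter (fun i => A.testBit i = true) ⊆ S.erase i := by
    intro j hj
    rw [Finset.mem_filter] at hj
    rw [Finset.mem_erase]
    refine ⟨?_, hj.1⟩
    intro h
    rw [h, hA] at hj
    exact absurd hj.2 (by decide)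
  have h2 := Finset.card_le_card h1
  rw [Finset.card_erase_of_mem hi] at h2
  omega

theorem mem_SE {E : Finset (Sym2 (Fin 28))} {i : Nat} : i ∈ SE E ↔ i < 76 ∧ ee i ∈ E := by
  unfold SE
  rw [Finset.mem_filter, Finset.mem_range]

theorem case_aux (E : Finset (Sym2 (Fin 28))) (hE : E.card ≤ 6)
    (A P i0 : Nat) (hi0 : i0 < 76) (hA : A.testBit i0 = false) (hst : GoodSt A P 5)
    (g : Fin 16) (e : Sym2 (Fin 28)) (he : e ∈ E) (hg : Sym2.map (act g) e = ee i0)
    (hP : ∀ i : Fin 76, (∃ e' ∈ E, kap e' = kap (ee i.1)) → P.testBit i.1 = false) :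
    Surv E := by
  apply surv_of_image E g
  apply surv_of_good
  apply hst
  have hcard : (SE (E.image (Sym2.map (act g)))).card ≤ 6 :=
    le_trans (SE_card _) (le_trans Finset.card_image_le hE)
  constructor
  · intro i hi
    rw [mem_SE] at hi
    have h1 := hi.2
    rw [Finset.mem_image] at h1
    obtain ⟨e', he', h2⟩ := h1
    apply hP ⟨i, hi.1⟩
    refine ⟨e', he', ?_⟩
    rw [← h2, kap_map]
  · apply card_aux _ A i0 _ hA hcard
    rw [mem_SE]
    refine ⟨hi0, ?_⟩
    rw [← hg]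
    exact Finset.mem_image_of_mem _ he

theorem surv_all (E : Finset (Sym2 (Fin 28))) (hsub : (↑E : Set (Sym2 (Fin 28))) ⊆ G.edgeSet)
    (hE : E.card ≤ 6) : Surv E := by
  have hidx : ∀ e ∈ E, ∃ i : Fin 76, e = ee i.1 := by
    intro e he
    have h1 := hsub (Finset.mem_coe.mpr he)
    induction e using Sym2.ind with
    | _ u v =>
      rw [SimpleGraph.mem_edgeSet] at h1
      exact edge_index u v h1
  by_cases hc4 : ∃ e ∈ E, kap e = 4
  · obtain ⟨e, he, hk⟩ := hc4
    obtain ⟨i, hi⟩ := hidx e he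
    rw [hi] at hk
    obtain ⟨g, hg⟩ := to7 i hk
    refine case_aux E hE _ _ 7 (by norm_num) (by decide +kernel) st0 g e he (by rw [hi]; exact hg) ?_
    intro j _
    exact P0_bits j
  · by_cases hc12 : ∃ e ∈ E, kap e = 12
    · obtain ⟨e, he, hk⟩ := hc12
      obtain ⟨i, hi⟩ := hidx e he
      rw [hi] at hk
      obtain ⟨g, hg⟩ := to10 i hk
      refine case_aux E hE _ _ 10 (by norm_num) (by decide +kernel) st1 g e he (by rw [hi]; exact hg) ?_
      rintro j ⟨e', he', hj⟩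
      refine P1_bits j ?_
      intro h
      exact hc4 ⟨e', he', by rw [hj, h]⟩
    · by_cases hc3 : ∃ e ∈ E, kap e = 3
      · obtain ⟨e, he, hk⟩ := hc3
        obtain ⟨i, hi⟩ := hidx e he
        rw [hi] at hk
        obtain ⟨g, hg⟩ := to6 i hk
        refine case_aux E hE _ _ 6 (by norm_num) (by decide +kernel) st2 g e he (by rw [hi]; exact hg) ?_
        rintro j ⟨e', he', hj⟩
        refine P2_bits j ?_ ?_
        · intro h
          exact hc4 ⟨e', he', by rw [hj, h]⟩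
        · intro h
          exact hc12 ⟨e', he', by rw [hj, h]⟩
      · apply surv_of_good
        apply st3
        constructor
        · intro i hi
          rw [mem_SE] at hi
          refine P3_bits ⟨i, hi.1⟩ ?_ ?_ ?_
          · intro h
            exact hc4 ⟨_, hi.2, h⟩
          · intro h
            exact hc12 ⟨_, hi.2, h⟩
          · intro h
            exact hc3 ⟨_, hi.2, h⟩
        · exact le_trans (Finset.card_filter_le _ _) (le_trans (SE_card E) hE)

end Pool.Agent.Bond
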